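import Pool.Agent.helper54.STB.Spec
import Pool.Agent.helper28.STA.PVF
import Pool.Agent.helper8.STB.PRC
import Pool.Agent.helper30.STB.RED

/-!
# Row sb:PRX (helper65): the input of RAD at a smaller place
-/

set_option autoImplicit false

open Complex Metric Set Filter Topology MeasureTheory
open STA

noncomputable section

namespace STB

theorem PRX (hBWB : BWB_stmt) (hBWU : BWU_stmt) : PRX_stmt := by
  intro e he he1
  obtain ⟨C, hC, hB⟩ := hBWB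
  obtain ⟨κ₁, hκ₁, hκ₁', hU⟩ := hBWU (e / 32) (by positivity)
  have hC0 : 0 < C := by linarith
  refine ⟨e / 100, min (κ₁ / 5) (e / (1000 * C)), by positivity, by linarith, by positivity, fun θ' hθ' hθ0 κ' hκ' => ?_⟩
  obtain ⟨ρ, hρd⟩ : ∃ ρ : ℝ, ρ = e / 100 := ⟨_, rfl⟩
  rw [← hρd] at hθ0 ⊢
  obtain ⟨θ, hθd⟩ : ∃ θ : ℝ, θ = ρ * θ' / 4 := ⟨_, rfl⟩
  rw [← hθd] at hθ0 ⊢
  have hρ0 : 0 < ρ := by rw [hρd]; positivity
  have hρ1 : ρ ≤ 1 / 1000 := by rw [hρd]; linarith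
  have hθ : 0 < θ := by rw [hθd]; positivity
  have hθa : θ ≤ κ₁ / 5 := hθ0.trans (min_le_left _ _)
  have hθb : C * θ ≤ e / 1000 := by
    have h1 : C * θ ≤ C * (e / (1000 * C)) := mul_le_mul_of_nonneg_left (hθ0.trans (min_le_right _ _)) hC0.le
    have h2 : C * (e / (1000 * C)) = e / 1000 := by
      field_simp
    linarith
  have hθc : θ ≤ e / 1000 := by
    have := mul_le_mul_of_nonneg_right hC hθ.le
    linarith
  refine ⟨min κ₁ (min (ρ * κ') (θ / 8)), by positivity, fun F s a m M hM hmM hN => ?_⟩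
  obtain ⟨κ, hκd⟩ : ∃ κ : ℝ, κ = min κ₁ (min (ρ * κ') (θ / 8)) := ⟨_, rfl⟩
  rw [← hκd] at hM
  have hκ0 : 0 < κ := by rw [hκd]; positivity
  have hκa : κ ≤ κ₁ := by rw [hκd]; exact min_le_left _ _
  have hκb : κ ≤ ρ * κ' := by rw [hκd]; exact (min_le_right _ _).trans (min_le_left _ _)
  have hκc : κ ≤ θ / 8 := by rw [hκd]; exact (min_le_right _ _).trans (min_le_right _ _)
  obtain ⟨ok, a1, aM, s0, s1, gM, iM, tM, ta, va, fa, tr, -⟩ := hM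
  obtain ⟨am, nθ, nn, nmin⟩ := hN
  have hρc : (ρ : ℂ) ≠ 0 := by exact_mod_cast hρ0.ne'
  obtain ⟨P1, P2, P3, -⟩ := STA.PVF F 0 (ρ : ℂ) hρc
  have hgi : ∀ i : ℕ, i ≤ M → ∀ z ∈ ball (0 : ℂ) 1, F.g i z := by
    intro i hi z hz
    have h1 : F.g ((M - i) + i) z := by rw [Nat.sub_add_cancel hi]; exact gM z hz
    exact ((ok.add (M - i) i z).1 h1).1
  have hz0 : (0 : ℂ) ∈ ball (0 : ℂ) 1 := mem_ball_self one_pos
  have hTa : ∀ z ∈ ball (0 : ℂ) 1, ‖T F a z - s‖ ≤ s / 20 := by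
    intro z hz
    have h1 := va 0 hz0 z hz
    rw [ta, Complex.norm_real, Real.norm_eq_abs, abs_of_pos s0, sub_zero] at h1
    rw [mem_ball_zero_iff] at hz
    have h2 : (1 / 30 * ‖z‖ + κ) * s ≤ (1 / 20) * s := by
      apply mul_le_mul_of_nonneg_right _ s0.le
      linarith
    linarith
  have va' : ∀ z ∈ ball (0 : ℂ) 1, ∀ z' ∈ ball (0 : ℂ) 1, ‖T F a z' - T F a z‖ ≤ ((1 / 30) * ‖z' - z‖ + 5 * θ) * ‖T F a z‖ := by
    intro z hz z' hz'
    refine (va z hz z' hz').trans (mul_le_mul_of_nonneg_right ?_ (norm_nonneg _))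
    linarith
  obtain ⟨W, hW1, -, -, hW4, -⟩ := hB F a s ok s0 (by linarith) (hgi a aM.le) hTa
  have hmain : ∀ n : ℕ, n ≤ M → (∀ z ∈ ball (0 : ℂ) 1, ‖T F n z‖ ≤ 5 * θ) → ∀ z z' : ℂ, ‖z‖ ≤ ρ → ‖z'‖ ≤ ρ →
      ‖T F n z' - T F n z‖ ≤ (e / 8) * ‖T F n z‖ + (e / 8) * s := by
    intro n hn hT z z' hz hz'
    have h1 := hU F a s ok s0 (by linarith) (hgi a aM.le) hTa W hW1 n (fun x hx => by
      have hx1 : x ∈ ball (0 : ℂ) 1 := ball_subset_ball (by norm_num) hx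
      exact ⟨hgi n hn x hx1, (hT x hx1).trans (by linarith)⟩)
    have h2 := PRC_main (ρ := ρ) hC (by linarith : (0 : ℝ) ≤ 5 * θ) (by linarith) (by linarith) (by linarith) s0 hTa va' (hW4 n) hT h1 hz hz'
    have h3 : (4 * C * (5 * θ) + ρ / 5 + 3 * (5 * θ)) * ‖T F n z‖ ≤ (e / 8) * ‖T F n z‖ := by
      apply mul_le_mul_of_nonneg_right _ (norm_nonneg _)
      have : 4 * C * (5 * θ) = 20 * (C * θ) := by ring
      rw [this, hρd]
      linarith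
    linarith
  have hsm : ∀ z : ℂ, ‖z‖ < 1 → ‖(0 : ℂ) + (ρ : ℂ) * z‖ ≤ ρ ∧ (0 : ℂ) + (ρ : ℂ) * z ∈ ball (0 : ℂ) 1 := by
    intro z hz
    have h1 : ‖(0 : ℂ) + (ρ : ℂ) * z‖ = ρ * ‖z‖ := by
      rw [zero_add, norm_mul, Complex.norm_real, Real.norm_eq_abs, abs_of_pos hρ0]
    have h2 : ρ * ‖z‖ ≤ ρ * 1 := mul_le_mul_of_nonneg_left hz.le hρ0.le
    refine ⟨by rw [h1]; linarith, ?_⟩
    rw [mem_ball_zero_iff, h1]
    linarith
  have hn2 : ∀ (n : ℕ) (z : ℂ), ‖T (PVs 0 (ρ : ℂ) F) n z‖ = ‖T F n (0 + (ρ : ℂ) * z)‖ / ρ := by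
    intro n z
    rw [P2, norm_div, Complex.norm_real, Real.norm_eq_abs, abs_of_pos hρ0]
  have hn3 : ∀ (n : ℕ) (z z' : ℂ), ‖T (PVs 0 (ρ : ℂ) F) n z' - T (PVs 0 (ρ : ℂ) F) n z‖ =
      ‖T F n (0 + (ρ : ℂ) * z') - T F n (0 + (ρ : ℂ) * z)‖ / ρ := by
    intro n z z'
    rw [P2, P2, ← sub_div, norm_div, Complex.norm_real, Real.norm_eq_abs, abs_of_pos hρ0]
  have h00 : (0 : ℂ) + (ρ : ℂ) * 0 = 0 := by ring
  -- the size of a displacement on the whole ball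
  have hsz : ∀ (i : ℕ) (t : ℝ), 1 ≤ i → i ≤ M → t ≤ 1 → ∀ z ∈ ball (0 : ℂ) 1, ‖T F i z‖ ≤ t → ∀ x ∈ ball (0 : ℂ) 1, ‖T F i x‖ ≤ 9 / 8 * t + κ := by
    intro i t hi1 hi2 ht z hz hzt x hx
    have h5 := tr i hi1 hi2 z hz x hx (hzt.trans ht)
    have h6 : ‖T F i x‖ ≤ ‖T F i z‖ + ‖T F i x - T F i z‖ := by
      calc ‖T F i x‖ = ‖T F i z + (T F i x - T F i z)‖ := by rw [add_sub_cancel]
        _ ≤ _ := norm_add_le _ _
    linarith
  have hm1 : 1 ≤ m := by omega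
  have hρθ : ρ * θ' = 4 * θ := by rw [hθd]; ring
  have tmθ : ∀ z ∈ ball (0 : ℂ) 1, ‖T F m z‖ ≤ 2 * θ := fun z hz =>
    (hsz m θ hm1 hmM (by linarith) 0 hz0 nθ z hz).trans (by linarith)
  -- multiples of `a`
  have hmv : ∀ (k : ℕ) (z : ℂ), ‖z‖ + k * (21 / 20 * s) < 1 → (19 / 20) * (k * s) ≤ ‖T F (k * a) z‖ := by
    intro k z hk
    have h1 := (RED_mv F ok a s s0 (hgi a aM.le) hTa k z hk).2
    have h2 : ‖((k : ℂ) * (s : ℂ))‖ = k * s := by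
      rw [norm_mul, Complex.norm_natCast, Complex.norm_real, Real.norm_of_nonneg s0.le]
    have h3 : ‖((k : ℂ) * (s : ℂ))‖ ≤ ‖T F (k * a) z‖ + ‖T F (k * a) z - k * s‖ := by
      calc ‖((k : ℂ) * (s : ℂ))‖ = ‖T F (k * a) z - (T F (k * a) z - k * s)‖ := by rw [sub_sub_cancel]
        _ ≤ _ := norm_sub_le _ _
    linarith
  refine ⟨P3 ok, a1, am, by positivity, ?_, ?_, ?_, ?_, ?_, ?_, ?_, ?_, ?_, ?_, ?_⟩
  · rw [div_le_iff₀ hρ0]
    linarith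
  · intro z hz
    exact hgi m hmM _ (hsm z (mem_ball_zero_iff.1 hz)).2
  · intro x hx y hy hxy
    have h1 : F.f^[m] (0 + (ρ : ℂ) * x) = F.f^[m] (0 + (ρ : ℂ) * y) := by
      rw [← P1, ← P1, hxy]
    have h1' : F.f^[M] (0 + (ρ : ℂ) * x) = F.f^[M] (0 + (ρ : ℂ) * y) := by
      have h3 : M = (M - m) + m := by omega
      rw [h3, Function.iterate_add_apply, Function.iterate_add_apply, h1]
    have h2 := iM (hsm x (mem_ball_zero_iff.1 hx)).2 (hsm y (mem_ball_zero_iff.1 hy)).2 h1'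
    rw [zero_add, zero_add] at h2
    exact mul_left_cancel₀ hρc h2
  · intro z hz
    rw [hn2, div_le_iff₀ hρ0]
    have := tmθ _ (hsm z (mem_ball_zero_iff.1 hz)).2
    linarith
  · rw [P2, h00, ta]
    push_cast
    rfl
  · intro z hz
    rw [hn3, h00, div_le_iff₀ hρ0]
    have h1 := hsm z (mem_ball_zero_iff.1 hz)
    have h2 := va 0 hz0 _ h1.2
    rw [ta, Complex.norm_real, Real.norm_eq_abs, abs_of_pos s0, sub_zero] at h2
    have h3 : (1 / 30 * ‖(0 : ℂ) + (ρ : ℂ) * z‖ + κ) * s ≤ e * s := by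
      apply mul_le_mul_of_nonneg_right _ s0.le
      have := h1.1
      linarith
    have h4 : e * (s / ρ) * ρ = e * s := by field_simp
    rw [h4, ta]
    linarith
  · intro z hz
    rw [hn3, hn2, h00, div_le_iff₀ hρ0]
    have h1 := hsm z (mem_ball_zero_iff.1 hz)
    have h2 := hmain m hmM (fun x hx => (tmθ x hx).trans (by linarith)) 0 _ (by rw [norm_zero]; exact hρ0.le) h1.1
    have h4 : e * (‖T F m 0‖ / ρ + s / ρ) * ρ = e * ‖T F m 0‖ + e * s := by field_simp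
    rw [h4]
    have h5 : 0 ≤ e * ‖T F m 0‖ := by positivity
    have h6 : 0 ≤ e * s := by positivity
    linarith
  · intro i hi1 hi2 z hz
    rw [hn2, le_div_iff₀ hρ0]
    have := fa i hi1 hi2 _ (hsm z (mem_ball_zero_iff.1 hz)).2
    linarith
  · intro i hi1 hi2 z hz z' hz' h
    have hz1 : ‖z‖ < 1 := by
      rw [mem_ball_zero_iff] at hz; linarith
    have hz1' : ‖z'‖ < 1 := by
      rw [mem_ball_zero_iff] at hz'; linarith
    rw [hn2] at h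
    rw [hn3, hn2, div_le_iff₀ hρ0]
    have h1 : ‖T F i (0 + (ρ : ℂ) * z)‖ ≤ 4 * θ := by
      rw [div_le_iff₀ hρ0] at h
      linarith
    have h2 : ∀ x ∈ ball (0 : ℂ) 1, ‖T F i x‖ ≤ 5 * θ := fun x hx =>
      (hsz i (4 * θ) hi1 (hi2.trans hmM) (by linarith) _ (hsm z hz1).2 h1 x hx).trans (by linarith)
    have h3 := hmain i (hi2.trans hmM) h2 _ _ (hsm z hz1).1 (hsm z' hz1').1
    have h4 : (e / 8 * (‖T F i (0 + (ρ : ℂ) * z)‖ / ρ) + e / 8 * (s / ρ)) * ρ =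
        e / 8 * ‖T F i (0 + (ρ : ℂ) * z)‖ + e / 8 * s := by field_simp
    rw [h4]
    exact h3
  · intro i hi1 hi2 z hz h
    have hz1 := hsm z (mem_ball_zero_iff.1 hz)
    rw [hn2, div_le_iff₀ hρ0] at h
    have h1 : ‖T F i (0 + (ρ : ℂ) * z)‖ ≤ 4 / 10 * θ := by linarith
    have h2 : ‖T F i 0‖ ≤ θ := (hsz i (4 / 10 * θ) hi1 (by omega) (by linarith) _ hz1.2 h1 0 hz0).trans (by linarith)
    rcases lt_trichotomy i a with hia | hia | hia
    · exfalso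
      have := fa i hi1 hia _ hz1.2
      linarith
    · refine ⟨1, by omega, ?_⟩
      rw [Nat.cast_one, one_mul, div_le_iff₀ hρ0]
      linarith
    · obtain ⟨k, hk, hks⟩ := nmin i hia hi2 h2
      refine ⟨k, hk, ?_⟩
      have h3 := hmv k (0 + (ρ : ℂ) * z) (by linarith [hz1.1])
      rw [← hk] at h3
      rw [← mul_div_assoc, div_le_iff₀ hρ0]
      linarith
  · intro k hk
    by_contra hc
    rw [not_lt, ← mul_div_assoc, div_le_iff₀ hρ0] at hc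
    have h3 := hmv k 0 (by rw [norm_zero]; linarith)
    rw [← hk] at h3
    exact nn ⟨k, hk, by linarith⟩

end STB
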