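import Pool.Agent.helper54.STB.Spec
import Pool.Agent.helper30.STB.RED

/-!
# Row sb:RDB (helper65): from the bound of RAD to a reduced return
-/

set_option autoImplicit false

open Complex Metric Set Filter Topology MeasureTheory
open STA

noncomputable section

namespace STB

/-- remainders vanish. -/
theorem RDB_rem (F : Sys) (hok : SOk F) (a : ℕ) (s : ℝ) (hs : 0 < s) (ha : 1 ≤ a) (hga : ∀ z ∈ ball (0 : ℂ) 1, F.g a z)
    (hT : ∀ z ∈ ball (0 : ℂ) 1, ‖T F a z - s‖ ≤ s / 20)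
    (hfa : ∀ i : ℕ, 1 ≤ i → i < a → ∀ z ∈ ball (0 : ℂ) 1, 1 ≤ ‖T F i z‖) (n : ℕ) (x : ℂ) (c : ℝ)
    (hx : ‖x‖ + c < 1) (hc : ((n / a : ℕ) : ℝ) * (21 / 20 * s) ≤ c) (hn : ‖T F n x‖ + c < 1) :
    n % a = 0 := by
  have h1 := RED_sz F hok a s hs hga hT (n / a) x (by linarith)
  have e : F.f^[n / a * a] x = x + T F (n / a * a) x := by unfold T; ring
  have hy : F.f^[n / a * a] x ∈ ball (0 : ℂ) 1 := by
    rw [mem_ball_zero_iff, e]
    exact (norm_add_le _ _).trans_lt (by linarith)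
  have hdm : n % a + n / a * a = n := by
    rw [mul_comm]; exact Nat.mod_add_div n a
  by_contra h0
  have h2 := hfa (n % a) (by omega) (Nat.mod_lt _ (by omega)) _ hy
  have e2 : T F (n % a) (F.f^[n / a * a] x) = T F n x - T F (n / a * a) x := by
    unfold T
    rw [← Function.iterate_add_apply, hdm]
    ring
  rw [e2] at h2
  have := norm_sub_le (T F n x) (T F (n / a * a) x)
  linarith

/-- the size of a displacement from `BW`. -/
theorem RDB_bd {C s τ : ℝ} {N B : ℂ} (hC : 0 ≤ C) (hs : 0 < s) (h : ‖N - (s : ℂ) * B‖ ≤ C * ‖N‖ ^ 2) (hN : ‖N‖ ≤ τ) (hτ : C * τ ≤ 1 / 2) :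
    ‖N‖ ≤ 2 * (s * ‖B‖) := by
  have h1 : ‖N‖ ≤ s * ‖B‖ + ‖N - (s : ℂ) * B‖ := by
    calc ‖N‖ = ‖(s : ℂ) * B + (N - (s : ℂ) * B)‖ := by rw [add_sub_cancel]
      _ ≤ ‖(s : ℂ) * B‖ + ‖N - (s : ℂ) * B‖ := norm_add_le _ _
      _ = _ := by rw [norm_mul, Complex.norm_real, Real.norm_eq_abs, abs_of_pos hs]
  have h2 : C * ‖N‖ ^ 2 ≤ 1 / 2 * ‖N‖ := by
    rw [pow_two, ← mul_assoc]
    apply mul_le_mul_of_nonneg_right _ (norm_nonneg _)
    exact (mul_le_mul_of_nonneg_left hN hC).trans hτ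
  linarith

theorem RDB (hBWB : BWB_stmt) (hBWU : BWU_stmt) : RDB_stmt := by
  obtain ⟨C, hC, hB⟩ := hBWB
  obtain ⟨κ₁, hκ₁, hκ₁', hU⟩ := hBWU (1 / 100) (by norm_num)
  have hC0 : 0 < C := by linarith
  refine ⟨min (κ₁ / 10) (1 / (10000 * C)), by positivity, fun θ hθ hθ0 N₀ κ' hN₀ hκ' => ?_⟩
  have hθa : θ ≤ κ₁ / 10 := hθ0.trans (min_le_left _ _)
  have hθb : C * θ ≤ 1 / 10000 := by
    have h1 : C * θ ≤ C * (1 / (10000 * C)) := mul_le_mul_of_nonneg_left (hθ0.trans (min_le_right _ _)) hC0.le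
    have h2 : C * (1 / (10000 * C)) = 1 / 10000 := by
      field_simp
    linarith
  have hθc : θ ≤ 1 / 10000 := by
    have := mul_le_mul_of_nonneg_right hC hθ.le
    linarith
  have hN1 : 1 ≤ N₀ + 1 := by linarith
  have hN0 : 0 < N₀ + 1 := by linarith
  refine ⟨min κ₁ (min (θ / (4 * (N₀ + 1))) (min (κ' / (4 * (N₀ + 1))) (1 / (40 * C * (N₀ + 1) ^ 2)))), by positivity, fun F s a m M hM hmM hN hIm => ?_⟩
  obtain ⟨κ, hκd⟩ : ∃ κ : ℝ, κ = min κ₁ (min (θ / (4 * (N₀ + 1))) (min (κ' / (4 * (N₀ + 1))) (1 / (40 * C * (N₀ + 1) ^ 2)))) := ⟨_, rfl⟩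
  rw [← hκd] at hM
  have hκ0 : 0 < κ := by rw [hκd]; positivity
  have hκa : κ ≤ κ₁ := by rw [hκd]; exact min_le_left _ _
  have hκb : (N₀ + 1) * κ ≤ θ / 4 := by
    have h1 : κ ≤ θ / (4 * (N₀ + 1)) := by rw [hκd]; exact (min_le_right _ _).trans (min_le_left _ _)
    rw [le_div_iff₀ (by positivity)] at h1
    linarith
  have hκc : (N₀ + 1) * κ ≤ κ' / 4 := by
    have h1 : κ ≤ κ' / (4 * (N₀ + 1)) := by
      rw [hκd]; exact (min_le_right _ _).trans ((min_le_right _ _).trans (min_le_left _ _))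
    rw [le_div_iff₀ (by positivity)] at h1
    linarith
  have hκd' : C * ((N₀ + 1) ^ 2 * κ) ≤ 1 / 40 := by
    have h1 : κ ≤ 1 / (40 * C * (N₀ + 1) ^ 2) := by
      rw [hκd]; exact (min_le_right _ _).trans ((min_le_right _ _).trans (min_le_right _ _))
    rw [le_div_iff₀ (by positivity)] at h1
    linarith
  have hκe : κ ≤ (N₀ + 1) * κ := by
    have := mul_le_mul_of_nonneg_right hN1 hκ0.le
    linarith
  obtain ⟨ok, a1, aM, s0, s1, gM, iM, tM, ta, va, fa, tr, re⟩ := hM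
  obtain ⟨am, nθ, nn, nmin⟩ := hN
  have hgi : ∀ i : ℕ, i ≤ M → ∀ z ∈ ball (0 : ℂ) 1, F.g i z := by
    intro i hi z hz
    have h1 : F.g ((M - i) + i) z := by rw [Nat.sub_add_cancel hi]; exact gM z hz
    exact ((ok.add (M - i) i z).1 h1).1
  have hz0 : (0 : ℂ) ∈ ball (0 : ℂ) 1 := mem_ball_self one_pos
  have hTa : ∀ z ∈ ball (0 : ℂ) 1, ‖T F a z - s‖ ≤ s / 20 := by
    intro z hz
    have h1 := va 0 hz0 z hz
    rw [ta, Complex.norm_real, Real.norm_eq_abs, abs_of_pos s0, sub_zero] at h1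
    rw [mem_ball_zero_iff] at hz
    have h2 : (1 / 30 * ‖z‖ + κ) * s ≤ (1 / 20) * s := by
      apply mul_le_mul_of_nonneg_right _ s0.le
      linarith
    linarith
  obtain ⟨W, hW1, hW2, -, hW4, -⟩ := hB F a s ok s0 (by linarith) (hgi a aM.le) hTa
  -- the size of a displacement on the whole ball
  have hsz : ∀ (i : ℕ) (t : ℝ), 1 ≤ i → i ≤ M → t ≤ 1 → ∀ z ∈ ball (0 : ℂ) 1, ‖T F i z‖ ≤ t → ∀ x ∈ ball (0 : ℂ) 1, ‖T F i x‖ ≤ 9 / 8 * t + κ := by
    intro i t hi1 hi2 ht z hz hzt x hx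
    have h5 := tr i hi1 hi2 z hz x hx (hzt.trans ht)
    have h6 : ‖T F i x‖ ≤ ‖T F i z‖ + ‖T F i x - T F i z‖ := by
      calc ‖T F i x‖ = ‖T F i z + (T F i x - T F i z)‖ := by rw [add_sub_cancel]
        _ ≤ _ := norm_add_le _ _
    linarith
  -- near constancy of `BW`
  have hbu : ∀ i : ℕ, i ≤ M → (∀ x ∈ ball (0 : ℂ) 1, ‖T F i x‖ ≤ 5 * θ) → ∀ z z' : ℂ, ‖z‖ ≤ 1 / 2 → ‖z'‖ ≤ 1 / 2 →
      ‖BW F W i z - BW F W i z'‖ ≤ 1 / 100 := by
    intro i hi hT z z' hz hz'
    refine hU F a s ok s0 (by linarith) (hgi a aM.le) hTa W hW1 i (fun x hx => ?_) z ?_ z' ?_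
    · have hx1 : x ∈ ball (0 : ℂ) 1 := ball_subset_ball (by norm_num) hx
      exact ⟨hgi i hi x hx1, (hT x hx1).trans (by linarith)⟩
    · rw [mem_ball_zero_iff]; linarith
    · rw [mem_ball_zero_iff]; linarith
  -- multiples of `a`
  have hmul : ∀ (k : ℕ) (x : ℂ), (k : ℝ) * s ≤ 10 * θ → ‖x‖ ≤ 1 / 2 → ‖T F (k * a) x‖ ≤ 21 / 20 * (k * s) ∧ ‖BW F W (k * a) x - k‖ ≤ C * (k * s) := by
    intro k x hk hx
    have h0 : ‖x‖ + k * (21 / 20 * s) < 98 / 100 := by linarith
    have h1 := RED_sz F ok a s s0 (hgi a aM.le) hTa k x (by linarith)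
    have h2 := RED_bwa F ok a s C s0 (hgi a aM.le) hTa W hW2 x k h0
    exact ⟨by linarith, by linarith⟩
  have hm1 : 1 ≤ m := by omega
  have tmθ : ∀ z ∈ ball (0 : ℂ) 1, ‖T F m z‖ ≤ 2 * θ := fun z hz =>
    (hsz m θ hm1 hmM (by linarith) 0 hz0 nθ z hz).trans (by linarith)
  -- the final step
  have hfin : ∀ m' : ℕ, a < m' → m' ≤ M → ‖T F m' 0‖ ≤ 5 * θ → |(BW F W m' 0).re| ≤ 11 / 20 → |(BW F W m' 0).im| ≤ N₀ + 1 / 50 →
      ∃ m' : ℕ, m' ≤ M ∧ MID F κ' s a m' ∧ |(T F m' 0 / T F a 0).im| ≤ N₀ + 1 := by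
    intro m' ham hm'M ht hre him
    have h1 := hW4 m' 0 (mem_ball_self (by norm_num)) (ht.trans (by linarith))
    rw [ta] at h1
    have hBn : ‖BW F W m' 0‖ ≤ N₀ + 1 := (Complex.norm_le_abs_re_add_abs_im _).trans (by linarith)
    have h2 := RDB_bd hC0.le s0 h1 ht (by linarith)
    have h3 : s * ‖BW F W m' 0‖ ≤ (N₀ + 1) * s := by
      have := mul_le_mul_of_nonneg_left hBn s0.le
      linarith
    have h4 : ‖T F m' 0‖ ≤ 2 * ((N₀ + 1) * s) := by linarith
    have h5 : (N₀ + 1) * s ≤ (N₀ + 1) * κ := mul_le_mul_of_nonneg_left s1 hN0.le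
    have h6 : ∀ x ∈ ball (0 : ℂ) 1, ‖T F m' x‖ ≤ κ' := fun x hx =>
      (hsz m' (2 * ((N₀ + 1) * s)) (by omega) hm'M (by linarith) 0 hz0 h4 x hx).trans (by linarith)
    refine ⟨m', hm'M, ⟨ok, a1, ham, s0, by linarith, hgi m' hm'M, ?_, h6, ta, ?_, fa, ?_, ?_⟩, ?_⟩
    · intro x hx y hy hxy
      have h7 : F.f^[M] x = F.f^[M] y := by
        have h8 : M = (M - m') + m' := by omega
        rw [h8, Function.iterate_add_apply, Function.iterate_add_apply, hxy]
      exact iM hx hy h7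
    · intro z hz z' hz'
      refine (va z hz z' hz').trans (mul_le_mul_of_nonneg_right ?_ (norm_nonneg _))
      linarith
    · intro i hi1 hi2 z hz z' hz' h7
      exact (tr i hi1 (hi2.trans hm'M) z hz z' hz' h7).trans (by linarith)
    · intro W' hW'
      rw [RED_W F a m' W W' hW1 hW' (by linarith)]
      exact hre
    · have h7 : ‖T F m' 0 / T F a 0 - BW F W m' 0‖ ≤ 1 / 10 := by
        have hsc : (s : ℂ) ≠ 0 := by exact_mod_cast s0.ne'
        have h8 : T F m' 0 / T F a 0 - BW F W m' 0 = (T F m' 0 - (s : ℂ) * BW F W m' 0) / (s : ℂ) := by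
          rw [ta]
          field_simp
        rw [h8, norm_div, Complex.norm_real, Real.norm_eq_abs, abs_of_pos s0, div_le_iff₀ s0]
        refine h1.trans ?_
        have h9 : ‖T F m' 0‖ ^ 2 ≤ (2 * ((N₀ + 1) * s)) ^ 2 := pow_le_pow_left₀ (norm_nonneg _) h4 2
        have h10 : C * ‖T F m' 0‖ ^ 2 ≤ C * (2 * ((N₀ + 1) * s)) ^ 2 := mul_le_mul_of_nonneg_left h9 hC0.le
        have h11 : C * (2 * ((N₀ + 1) * s)) ^ 2 = 4 * (C * ((N₀ + 1) ^ 2 * s)) * s := by ring
        have h12 : C * ((N₀ + 1) ^ 2 * s) ≤ C * ((N₀ + 1) ^ 2 * κ) := by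
          apply mul_le_mul_of_nonneg_left _ hC0.le
          exact mul_le_mul_of_nonneg_left s1 (by positivity)
        have h13 : 4 * (C * ((N₀ + 1) ^ 2 * s)) * s ≤ 1 / 10 * s := by
          apply mul_le_mul_of_nonneg_right _ s0.le
          linarith
        linarith
      have h8 := (Complex.abs_im_le_norm (T F m' 0 / T F a 0 - BW F W m' 0)).trans h7
      rw [Complex.sub_im] at h8
      have h9 := abs_sub_abs_le_abs_sub (T F m' 0 / T F a 0).im (BW F W m' 0).im
      linarith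
  -- `β`
  obtain ⟨β, hβ⟩ : ∃ β : ℂ, β = BW F W m 0 := ⟨_, rfl⟩
  have hβi : |β.im| ≤ N₀ := by rw [hβ]; exact hIm W hW1
  have hβn : s * ‖β‖ ≤ 11 / 10 * θ := by
    have h1 := hW4 m 0 (mem_ball_self (by norm_num)) (nθ.trans (by linarith))
    rw [ta, ← hβ] at h1
    have h2 : C * ‖T F m 0‖ ^ 2 ≤ 1 / 10000 * ‖T F m 0‖ := by
      rw [pow_two, ← mul_assoc]
      apply mul_le_mul_of_nonneg_right _ (norm_nonneg _)
      exact (mul_le_mul_of_nonneg_left nθ hC0.le).trans hθb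
    have h3 : s * ‖β‖ ≤ ‖T F m 0‖ + ‖T F m 0 - (s : ℂ) * β‖ := by
      calc s * ‖β‖ = ‖(s : ℂ) * β‖ := by rw [norm_mul, Complex.norm_real, Real.norm_eq_abs, abs_of_pos s0]
        _ = ‖T F m 0 - (T F m 0 - (s : ℂ) * β)‖ := by rw [sub_sub_cancel]
        _ ≤ _ := norm_sub_le _ _
    linarith
  have hrd : |β.re - (round β.re : ℤ)| ≤ 1 / 2 := abs_sub_round _
  have hkb : ∀ k : ℝ, |k| = |((round β.re : ℤ) : ℝ)| → |k| * s ≤ 2 * θ := by
    intro k hk
    have h1 : |((round β.re : ℤ) : ℝ)| ≤ ‖β‖ + 1 / 2 := by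
      have h2 := abs_sub_abs_le_abs_sub ((round β.re : ℤ) : ℝ) β.re
      rw [abs_sub_comm] at h2
      have h3 := Complex.abs_re_le_norm β
      linarith
    have h4 := mul_le_mul_of_nonneg_right h1 s0.le
    rw [hk]
    linarith
  rcases le_or_gt (round β.re) 0 with hk0 | hk0
  · -- (b) and (c)
    obtain ⟨p, hp⟩ : ∃ p : ℕ, round β.re = -(p : ℤ) := ⟨(-round β.re).toNat, by omega⟩
    have hpR : ((round β.re : ℤ) : ℝ) = -(p : ℝ) := by rw [hp]; push_cast; ring
    have hps : (p : ℝ) * s ≤ 2 * θ := by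
      have := hkb p (by rw [hpR, abs_neg])
      rwa [abs_of_nonneg (Nat.cast_nonneg p)] at this
    rw [hpR] at hrd
    rcases le_or_gt (m + p * a) M with hle | hgt
    · -- (b)
      obtain ⟨t1, b1⟩ := hmul p 0 (by linarith) (by rw [norm_zero]; norm_num)
      obtain ⟨x, hx⟩ : ∃ x : ℂ, x = F.f^[p * a] 0 := ⟨_, rfl⟩
      have hxn : ‖x‖ ≤ 21 / 20 * (p * s) := by
        have : x = T F (p * a) 0 := by rw [hx]; unfold T; ring
        rw [this]; exact t1
      have hxb : x ∈ ball (0 : ℂ) 1 := by rw [mem_ball_zero_iff]; linarith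
      have e1 : T F (m + p * a) 0 = T F m x + T F (p * a) 0 := by
        unfold T
        rw [Function.iterate_add_apply, ← hx]
        ring
      have e2 : BW F W (m + p * a) 0 = BW F W m x + BW F W (p * a) 0 := by
        unfold BW
        rw [Function.iterate_add_apply, ← hx]
        ring
      have h1 := hbu m hmM (fun z hz => (tmθ z hz).trans (by linarith)) x 0 (by linarith) (by rw [norm_zero]; norm_num)
      rw [← hβ] at h1
      have h2 : ‖BW F W (m + p * a) 0 - (β + p)‖ ≤ 1 / 100 + 1 / 1000 := by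
        have e3 : BW F W (m + p * a) 0 - (β + p) = (BW F W m x - β) + (BW F W (p * a) 0 - p) := by rw [e2]; ring
        rw [e3]
        refine (norm_add_le _ _).trans ?_
        have h3 : C * (p * s) ≤ C * (2 * θ) := mul_le_mul_of_nonneg_left hps hC0.le
        linarith
      refine hfin (m + p * a) (by omega) hle ?_ ?_ ?_
      · rw [e1]
        refine (norm_add_le _ _).trans ?_
        have := tmθ x hxb
        linarith
      · have h3 := (Complex.abs_re_le_norm _).trans h2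
        rw [Complex.sub_re, Complex.add_re, Complex.natCast_re] at h3
        have h4 := abs_sub_abs_le_abs_sub (BW F W (m + p * a) 0).re (β.re + p)
        rw [sub_neg_eq_add] at hrd
        linarith
      · have h3 := (Complex.abs_im_le_norm _).trans h2
        rw [Complex.sub_im, Complex.add_im, Complex.natCast_im, add_zero] at h3
        have h4 := abs_sub_abs_le_abs_sub (BW F W (m + p * a) 0).im β.im
        linarith
    · -- (c)
      obtain ⟨x, hx⟩ : ∃ x : ℂ, x = F.f^[m] 0 := ⟨_, rfl⟩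
      have hxT : x = T F m 0 := by rw [hx]; unfold T; ring
      have hxn : ‖x‖ ≤ θ := by rw [hxT]; exact nθ
      obtain ⟨n, hn⟩ : ∃ n : ℕ, n = M - m := ⟨_, rfl⟩
      have hMn : M = n + m := by omega
      have e1 : T F n x = T F M 0 - T F m 0 := by
        unfold T
        rw [hx, hMn, Function.iterate_add_apply]
        ring
      have hkd : n / a ≤ p := by
        have h1 : n < p * a := by omega
        exact (Nat.div_lt_of_lt_mul (by rw [mul_comm]; exact h1)).le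
      have hkdR : ((n / a : ℕ) : ℝ) * s ≤ 2 * θ := by
        have h1 : ((n / a : ℕ) : ℝ) ≤ p := by exact_mod_cast hkd
        have := mul_le_mul_of_nonneg_right h1 s0.le
        linarith
      have hmod := RDB_rem F ok a s s0 a1 (hgi a aM.le) hTa fa n x (3 * θ) (by linarith) (by linarith) (by
        rw [e1]
        have h1 := norm_sub_le (T F M 0) (T F m 0)
        have h2 := tM 0 hz0
        linarith)
      have hna : n = n / a * a := by
        have h1 := Nat.mod_add_div n a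
        rw [hmod, zero_add, mul_comm] at h1
        exact h1.symm
      obtain ⟨-, b1⟩ := hmul (n / a) x (by linarith) (by linarith)
      rw [← hna] at b1
      have e2 : BW F W M 0 = BW F W n x + β := by
        rw [hβ]
        unfold BW
        rw [hx, hMn, Function.iterate_add_apply]
        ring
      refine hfin M aM le_rfl ?_ (re W hW1) ?_
      · have := tM 0 hz0
        linarith
      · have h3 := (Complex.abs_im_le_norm _).trans b1
        rw [Complex.sub_im, Complex.natCast_im, sub_zero] at h3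
        have h4 : C * (((n / a : ℕ) : ℝ) * s) ≤ C * (2 * θ) := mul_le_mul_of_nonneg_left hkdR hC0.le
        rw [e2, Complex.add_im]
        have h5 := abs_add_le (BW F W n x).im β.im
        linarith
  · -- (a)
    exfalso
    obtain ⟨k, hk⟩ : ∃ k : ℕ, round β.re = (k : ℤ) := ⟨(round β.re).toNat, by omega⟩
    have hk1 : 1 ≤ k := by omega
    have hkR : ((round β.re : ℤ) : ℝ) = (k : ℝ) := by rw [hk]; push_cast; ring
    have hks : (k : ℝ) * s ≤ 2 * θ := by
      have := hkb k (by rw [hkR])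
      rwa [abs_of_nonneg (Nat.cast_nonneg k)] at this
    rw [hkR] at hrd
    have hkm : (k + 1) * a < m := by
      by_contra hc
      rw [not_lt] at hc
      have hkd : m / a ≤ k + 1 := Nat.div_le_of_le_mul (by rw [mul_comm]; exact hc)
      have hkdR : ((m / a : ℕ) : ℝ) * s ≤ 3 * θ := by
        have h1 : ((m / a : ℕ) : ℝ) ≤ k + 1 := by exact_mod_cast hkd
        have := mul_le_mul_of_nonneg_right h1 s0.le
        linarith
      have hmod := RDB_rem F ok a s s0 a1 (hgi a aM.le) hTa fa m 0 (4 * θ) (by rw [norm_zero]; linarith) (by linarith) (by linarith)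
      refine nn ⟨m / a, ?_, by linarith⟩
      have h1 := Nat.mod_add_div m a
      rw [hmod, zero_add, mul_comm] at h1
      exact h1.symm
    obtain ⟨i, hi⟩ : ∃ i : ℕ, i = m - k * a := ⟨_, rfl⟩
    have hka : (k + 1) * a = k * a + a := by ring
    have hka1 : 1 ≤ k * a := Nat.mul_pos hk1 a1
    have hmi : m = i + k * a := by omega
    have hia : a < i := by omega
    have him : i < m := by omega
    obtain ⟨t1, b1⟩ := hmul k 0 (by linarith) (by rw [norm_zero]; norm_num)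
    obtain ⟨x, hx⟩ : ∃ x : ℂ, x = F.f^[k * a] 0 := ⟨_, rfl⟩
    have hxT : x = T F (k * a) 0 := by rw [hx]; unfold T; ring
    have hxn : ‖x‖ ≤ 21 / 20 * (k * s) := by rw [hxT]; exact t1
    have hxb : x ∈ ball (0 : ℂ) 1 := by rw [mem_ball_zero_iff]; linarith
    have e1 : T F i x = T F m 0 - T F (k * a) 0 := by
      unfold T
      rw [hx, hmi, Function.iterate_add_apply]
      ring
    have e2 : BW F W i x = β - BW F W (k * a) 0 := by
      rw [hβ]
      unfold BW
      rw [hx, hmi, Function.iterate_add_apply]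
      ring
    have h1 : ‖T F i x‖ ≤ 32 / 10 * θ := by
      rw [e1]
      refine (norm_sub_le _ _).trans ?_
      linarith
    have h2 : ∀ z ∈ ball (0 : ℂ) 1, ‖T F i z‖ ≤ 5 * θ := fun z hz =>
      (hsz i (32 / 10 * θ) (by omega) (by omega) (by linarith) x hxb h1 z hz).trans (by linarith)
    have h3 := hbu i (by omega) h2 0 x (by rw [norm_zero]; norm_num) (by linarith)
    have h4 : ‖BW F W i 0 - (β - k)‖ ≤ 1 / 50 := by
      have e3 : BW F W i 0 - (β - k) = (BW F W i 0 - BW F W i x) - (BW F W (k * a) 0 - k) := by rw [e2]; ring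
      rw [e3]
      refine (norm_sub_le _ _).trans ?_
      have h5 : C * (k * s) ≤ C * (2 * θ) := mul_le_mul_of_nonneg_left hks hC0.le
      linarith
    have h5 : ‖β - k‖ ≤ N₀ + 1 / 2 := by
      refine (Complex.norm_le_abs_re_add_abs_im _).trans ?_
      rw [Complex.sub_re, Complex.sub_im, Complex.natCast_re, Complex.natCast_im, sub_zero]
      linarith
    have h6 : ‖BW F W i 0‖ ≤ N₀ + 1 := by
      calc ‖BW F W i 0‖ = ‖(β - k) + (BW F W i 0 - (β - k))‖ := by rw [add_sub_cancel]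
        _ ≤ ‖β - k‖ + ‖BW F W i 0 - (β - k)‖ := norm_add_le _ _
        _ ≤ _ := by linarith
    have h7 := hW4 i 0 (mem_ball_self (by norm_num)) ((h2 0 hz0).trans (by linarith))
    rw [ta] at h7
    have h8 := RDB_bd hC0.le s0 h7 (h2 0 hz0) (by linarith)
    have h9 : s * ‖BW F W i 0‖ ≤ (N₀ + 1) * s := by
      have := mul_le_mul_of_nonneg_left h6 s0.le
      linarith
    have h10 : (N₀ + 1) * s ≤ (N₀ + 1) * κ := mul_le_mul_of_nonneg_left s1 hN0.le
    obtain ⟨k', hk', hks'⟩ := nmin i hia him (by linarith)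
    obtain ⟨-, b2⟩ := hmul k' 0 hks' (by rw [norm_zero]; norm_num)
    rw [← hk'] at b2
    have h11 : (k' : ℝ) ≤ ‖BW F W i 0‖ + ‖BW F W i 0 - k'‖ := by
      calc (k' : ℝ) = ‖((k' : ℕ) : ℂ)‖ := (Complex.norm_natCast k').symm
        _ = ‖BW F W i 0 - (BW F W i 0 - k')‖ := by rw [sub_sub_cancel]
        _ ≤ _ := norm_sub_le _ _
    have h12 : C * (k' * s) ≤ C * (10 * θ) := mul_le_mul_of_nonneg_left hks' hC0.le
    have h13 : (k' : ℝ) ≤ 2 * (N₀ + 1) := by linarith
    have h14 : (k' : ℝ) * s ≤ 2 * (N₀ + 1) * s := mul_le_mul_of_nonneg_right h13 s0.le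
    refine nn ⟨k' + k, ?_, ?_⟩
    · rw [hmi, hk']; ring
    · push_cast
      linarith

end STB
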